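import Mathlib
import Pool.Agent.Lib.MP_9d720b_co.Wielandt

set_option autoImplicit false

namespace Pool.Agent.Results.MP_9d720b_co.MaxPrimitiveDegree

open Finset Function
open Pool.Agent.Lib.MP_9d720b_co

/-- A tensor of order `m = k + 1` and dimension `n` is a function `A`, where `A i f` is the entry
`a_{i i_2 ... i_m}` with `(i_2, ..., i_m) = (f 0, ..., f (k - 1))`.  This is the vector `A x`. -/
def tensorApply {k n : ℕ} (A : Fin n → (Fin k → Fin n) → ℝ) (x : Fin n → ℝ) : Fin n → ℝ :=
  fun i => ∑ f : Fin k → Fin n, A i f * ∏ t, x (f t)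

/-- The map `T_A(x) = (A x)^{[1/(m-1)]}`, where `m - 1 = k`. -/
noncomputable def tensorMap {k n : ℕ} (A : Fin n → (Fin k → Fin n) → ℝ) (x : Fin n → ℝ) :
    Fin n → ℝ :=
  fun i => (tensorApply A x i) ^ (1 / (k : ℝ))

/-- `T_A^r(x) > 0` for every nonzero `x ≥ 0`. -/
def PositiveAfter {k n : ℕ} (A : Fin n → (Fin k → Fin n) → ℝ) (r : ℕ) : Prop :=
  ∀ x : Fin n → ℝ, (∀ i, 0 ≤ x i) → x ≠ 0 → ∀ i, 0 < (tensorMap A)^[r] x i

/-- `A` is primitive and its primitive degree is `g`. -/
def HasPrimitiveDegree {k n : ℕ} (A : Fin n → (Fin k → Fin n) → ℝ) (g : ℕ) : Prop :=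
  IsLeast {r : ℕ | 0 < r ∧ PositiveAfter A r} g

/-- The extremal form, with indices numbered `0, ..., n - 1` instead of `1, ..., n`:
the entries `b_{i j ... j}` have the zero pattern of the Wielandt matrix `W_n`, and every nonzero
entry `b_{i i_2 ... i_m}` satisfies (in the numbering `1, ..., n`): some `i_t = i + 1` if
`i ≤ n - 2`, some `i_t ∈ {n, 1}` if `i = n - 1`, and some `i_t ∈ {1, 2}` if `i = n`. -/
def ExtremalForm {k n : ℕ} (B : Fin n → (Fin k → Fin n) → ℝ) : Prop :=
  (∀ i j : Fin n, B i (fun _ => j) ≠ 0 ↔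
    (j.val = i.val + 1 ∨ (i.val + 1 = n ∧ (j.val = 0 ∨ j.val = 1)))) ∧
  ∀ (i : Fin n) (f : Fin k → Fin n), B i f ≠ 0 →
    (i.val + 2 < n → ∃ t, (f t).val = i.val + 1) ∧
    (i.val + 2 = n → ∃ t, (f t).val + 1 = n ∨ (f t).val = 0) ∧
    (i.val + 1 = n → ∃ t, (f t).val = 0 ∨ (f t).val = 1)

section support

open scoped Classical

variable {k m : ℕ}

/-- Index set of the positive entries. -/
noncomputable def supp (x : Fin (m + 2) → ℝ) : Finset (Fin (m + 2)) :=
  univ.filter fun i => 0 < x i

theorem mem_supp {x : Fin (m + 2) → ℝ} {i : Fin (m + 2)} : i ∈ supp x ↔ 0 < x i := by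
  simp [supp]

/-- Zero pattern of a tensor. -/
def pat (A : Fin (m + 2) → (Fin k → Fin (m + 2)) → ℝ) :
    Fin (m + 2) → (Fin k → Fin (m + 2)) → Prop := fun i f => A i f ≠ 0

theorem apply_nonneg {A : Fin (m + 2) → (Fin k → Fin (m + 2)) → ℝ} (hA : ∀ i f, 0 ≤ A i f)
    {x : Fin (m + 2) → ℝ} (hx : ∀ i, 0 ≤ x i) (i : Fin (m + 2)) : 0 ≤ tensorApply A x i :=
  sum_nonneg fun f _ => mul_nonneg (hA i f) (prod_nonneg fun _ _ => hx _)

theorem map_nonneg {A : Fin (m + 2) → (Fin k → Fin (m + 2)) → ℝ} (hA : ∀ i f, 0 ≤ A i f)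
    {x : Fin (m + 2) → ℝ} (hx : ∀ i, 0 ≤ x i) (i : Fin (m + 2)) : 0 ≤ tensorMap A x i :=
  Real.rpow_nonneg (apply_nonneg hA hx i) _

theorem supp_map (hk : 0 < k) {A : Fin (m + 2) → (Fin k → Fin (m + 2)) → ℝ}
    (hA : ∀ i f, 0 ≤ A i f) {x : Fin (m + 2) → ℝ} (hx : ∀ i, 0 ≤ x i) :
    supp (tensorMap A x) = step (pat A) (supp x) := by
  ext i
  rw [mem_supp, mem_step]
  have h1 : 0 < tensorMap A x i ↔ 0 < tensorApply A x i := by
    constructor
    · intro h
      by_contra hne
      have h0 : tensorApply A x i = 0 := le_antisymm (not_lt.1 hne) (apply_nonneg hA hx i)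
      have hk' : (1 / (k : ℝ)) ≠ 0 := by
        have : (k : ℝ) ≠ 0 := Nat.cast_ne_zero.2 hk.ne'
        exact one_div_ne_zero this
      unfold tensorMap at h
      rw [h0, Real.zero_rpow hk'] at h
      exact lt_irrefl _ h
    · intro h
      exact Real.rpow_pos_of_pos h _
  rw [h1]
  unfold tensorApply
  rw [sum_pos_iff_of_nonneg fun f _ => mul_nonneg (hA i f) (prod_nonneg fun t _ => hx _)]
  constructor
  · rintro ⟨f, _, hf⟩
    have h2 : A i f ≠ 0 := by
      intro h0
      rw [h0, zero_mul] at hf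
      exact lt_irrefl _ hf
    refine ⟨f, h2, fun t => ?_⟩
    rw [mem_supp]
    rcases (hx (f t)).lt_or_eq with h3 | h3
    · exact h3
    · have : ∏ t, x (f t) = 0 := prod_eq_zero (mem_univ t) h3.symm
      rw [this, mul_zero] at hf
      exact absurd hf (lt_irrefl _)
  · rintro ⟨f, hf, hft⟩
    refine ⟨f, mem_univ _, mul_pos (lt_of_le_of_ne (hA i f) (Ne.symm hf)) ?_⟩
    exact prod_pos fun t _ => mem_supp.1 (hft t)

theorem supp_iter (hk : 0 < k) {A : Fin (m + 2) → (Fin k → Fin (m + 2)) → ℝ}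
    (hA : ∀ i f, 0 ≤ A i f) {x : Fin (m + 2) → ℝ} (hx : ∀ i, 0 ≤ x i) (r : ℕ) :
    (∀ i, 0 ≤ (tensorMap A)^[r] x i) ∧
      supp ((tensorMap A)^[r] x) = (step (pat A))^[r] (supp x) := by
  induction r with
  | zero => exact ⟨hx, rfl⟩
  | succ r ih =>
    constructor
    · intro i
      rw [iterate_succ_apply']
      exact map_nonneg hA ih.1 i
    · rw [iterate_succ_apply', iterate_succ_apply', supp_map hk hA ih.1, ih.2]

theorem positiveAfter_iff (hk : 0 < k) {A : Fin (m + 2) → (Fin k → Fin (m + 2)) → ℝ}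
    (hA : ∀ i f, 0 ≤ A i f) (r : ℕ) :
    PositiveAfter A r ↔ ∀ j, (step (pat A))^[r] {j} = univ := by
  constructor
  · intro h j
    have hx : ∀ i, 0 ≤ (Pi.single j 1 : Fin (m + 2) → ℝ) i := by
      intro i
      by_cases hij : i = j
      · subst hij
        simp
      · simp [Pi.single_eq_of_ne hij]
    have hne : (Pi.single j 1 : Fin (m + 2) → ℝ) ≠ 0 := by
      intro h0
      have := congrFun h0 j
      simp at this
    have hs : supp (Pi.single j 1 : Fin (m + 2) → ℝ) = {j} := by
      ext i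
      rw [mem_supp, mem_singleton]
      by_cases hij : i = j
      · subst hij
        simp
      · simp [hij]
    rw [← hs, ← (supp_iter hk hA hx r).2]
    apply eq_univ_of_forall
    intro i
    exact mem_supp.2 (h _ hx hne i)
  · intro h x hx hne i
    obtain ⟨j, hj⟩ := Function.ne_iff.1 hne
    have hj' : j ∈ supp x := mem_supp.2 (lt_of_le_of_ne (hx j) (Ne.symm hj))
    have h1 := iter_mono (pat A) r (singleton_subset_iff.2 hj')
    rw [← mem_supp, (supp_iter hk hA hx r).2]
    apply h1
    rw [h j]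
    exact mem_univ _

/-- Relabelled tensor. -/
def relabel (A : Fin (m + 2) → (Fin k → Fin (m + 2)) → ℝ) (σ : Equiv.Perm (Fin (m + 2))) :
    Fin (m + 2) → (Fin k → Fin (m + 2)) → ℝ := fun i f => A (σ i) (fun t => σ (f t))

theorem step_relabel (A : Fin (m + 2) → (Fin k → Fin (m + 2)) → ℝ)
    (σ : Equiv.Perm (Fin (m + 2))) (S : Finset (Fin (m + 2))) :
    step (pat A) (S.map σ.toEmbedding) = (step (pat (relabel A σ)) S).map σ.toEmbedding := by
  ext i
  rw [mem_step, mem_map_equiv, mem_step]
  constructor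
  · rintro ⟨g, hg, hgt⟩
    refine ⟨fun t => σ.symm (g t), ?_, fun t => ?_⟩
    · simpa [pat, relabel] using hg
    · have := hgt t
      rwa [mem_map_equiv] at this
  · rintro ⟨f, hf, hft⟩
    refine ⟨fun t => σ (f t), ?_, fun t => ?_⟩
    · simpa [pat, relabel] using hf
    · rw [mem_map_equiv]
      simpa using hft t

theorem iter_relabel (A : Fin (m + 2) → (Fin k → Fin (m + 2)) → ℝ)
    (σ : Equiv.Perm (Fin (m + 2))) (r : ℕ) (S : Finset (Fin (m + 2))) :
    (step (pat A))^[r] (S.map σ.toEmbedding) =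
      ((step (pat (relabel A σ)))^[r] S).map σ.toEmbedding := by
  induction r with
  | zero => rfl
  | succ r ih => rw [iter_succ, iter_succ, ih, step_relabel]

theorem iter_relabel_univ (A : Fin (m + 2) → (Fin k → Fin (m + 2)) → ℝ)
    (σ : Equiv.Perm (Fin (m + 2))) (r : ℕ) (j : Fin (m + 2)) :
    (step (pat A))^[r] {σ j} = univ ↔ (step (pat (relabel A σ)))^[r] {j} = univ := by
  have h := iter_relabel A σ r {j}
  rw [map_singleton] at h
  have e : (step (pat A))^[r] {σ j} =
      ((step (pat (relabel A σ)))^[r] {j}).map σ.toEmbedding := h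
  rw [e]
  constructor
  · intro h1
    apply eq_univ_of_forall
    intro x
    have : σ x ∈ ((step (pat (relabel A σ)))^[r] {j}).map σ.toEmbedding := by
      rw [h1]; exact mem_univ _
    rw [mem_map_equiv] at this
    simpa using this
  · intro h1
    rw [h1]
    exact map_univ_equiv σ

theorem extremal_iff (B : Fin (m + 2) → (Fin k → Fin (m + 2)) → ℝ) :
    ExtremalForm B ↔ IsW (pat B) ∧ Cond (pat B) := by
  have hstep : ∀ i j : Fin (m + 2), i ∈ step (pat B) {j} ↔ B i (fun _ => j) ≠ 0 := by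
    intro i j
    rw [mem_step]
    constructor
    · rintro ⟨f, hf, hft⟩
      have : f = fun _ => j := by
        funext t
        exact mem_singleton.1 (hft t)
      rw [this] at hf
      exact hf
    · intro h
      exact ⟨_, h, fun t => mem_singleton_self _⟩
  constructor
  · rintro ⟨h1, h2⟩
    constructor
    · intro i j
      rw [hstep, h1]
      constructor
      · rintro (h | ⟨h, h'⟩)
        · exact Or.inl h
        · exact Or.inr ⟨by omega, h'⟩
      · rintro (h | ⟨h, h'⟩)
        · exact Or.inl h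
        · exact Or.inr ⟨by omega, h'⟩
    · intro i f hf
      obtain ⟨c1, c2, c3⟩ := h2 i f hf
      refine ⟨fun h => c1 (by omega), fun h => ?_, fun h => c3 (by omega)⟩
      obtain ⟨t, ht⟩ := c2 (by omega)
      exact ⟨t, by omega⟩
  · rintro ⟨h1, h2⟩
    constructor
    · intro i j
      rw [← hstep, h1]
      constructor
      · rintro (h | ⟨h, h'⟩)
        · exact Or.inl h
        · exact Or.inr ⟨by omega, h'⟩
      · rintro (h | ⟨h, h'⟩)
        · exact Or.inl h
        · exact Or.inr ⟨by omega, h'⟩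
    · intro i f hf
      obtain ⟨c1, c2, c3⟩ := h2 i f hf
      refine ⟨fun h => c1 (by omega), fun h => ?_, fun h => c3 (by omega)⟩
      obtain ⟨t, ht⟩ := c2 (by omega)
      exact ⟨t, by omega⟩

/-- The permutation attached to an extremal walk. -/
noncomputable def walkPerm (w : ℕ → Fin (m + 2))
    (hinj : ∀ a b, a < m + 2 → b < m + 2 → w a = w b → a = b) : Equiv.Perm (Fin (m + 2)) :=
  Equiv.ofBijective (fun x => if x.val = 0 then w 0 else w (m + 2 - x.val)) <| by
    rw [← Finite.injective_iff_bijective]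
    intro x y hxy
    have hx := x.2
    have hy := y.2
    simp only at hxy
    apply Fin.ext
    split_ifs at hxy with h1 h2 h2
    · omega
    · have := hinj _ _ (by omega) (by omega) hxy
      omega
    · have := hinj _ _ (by omega) (by omega) hxy
      omega
    · have := hinj _ _ (by omega) (by omega) hxy
      omega

theorem walkPerm_zero (w : ℕ → Fin (m + 2))
    (hinj : ∀ a b, a < m + 2 → b < m + 2 → w a = w b → a = b) (x : Fin (m + 2))
    (hx : x.val = 0) : walkPerm w hinj x = w 0 := if_pos hx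

theorem walkPerm_pos (w : ℕ → Fin (m + 2))
    (hinj : ∀ a b, a < m + 2 → b < m + 2 → w a = w b → a = b) (x : Fin (m + 2))
    (hx : x.val ≠ 0) : walkPerm w hinj x = w (m + 2 - x.val) := if_neg hx

theorem main_forward (hk : 0 < k) {A : Fin (m + 2) → (Fin k → Fin (m + 2)) → ℝ}
    (hfull : ∀ j, (step (pat A))^[(m + 1) ^ 2 + 1] {j} = univ)
    (j0 : Fin (m + 2)) (h0 : (step (pat A))^[(m + 1) ^ 2] {j0} ≠ univ) :
    ∃ σ : Equiv.Perm (Fin (m + 2)), ExtremalForm (relabel A σ) := by
  obtain ⟨w, hw0, hinj, hw1, hw2⟩ := exists_struct (pat A) hk hfull j0 h0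
  refine ⟨walkPerm w hinj, ?_⟩
  rw [extremal_iff]
  set σ := walkPerm w hinj with hσ
  have hW : IsW (pat (relabel A σ)) := by
    intro i j
    have h1 : i ∈ step (pat (relabel A σ)) {j} ↔ σ i ∈ step (pat A) {σ j} := by
      have := step_relabel A σ {j}
      rw [map_singleton] at this
      have e : step (pat A) {σ j} = (step (pat (relabel A σ)) {j}).map σ.toEmbedding := this
      rw [e, mem_map_equiv]
      simp
    rw [h1]
    have hi := i.2
    have hj := j.2
    have hval : ∀ a, a < m + 2 → (σ i = w a ↔ (if i.val = 0 then 0 else m + 2 - i.val) = a) := by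
      intro a ha
      by_cases hi0 : i.val = 0
      · rw [walkPerm_zero w hinj i hi0, if_pos hi0]
        exact ⟨fun h => hinj _ _ (by omega) ha h, fun h => by rw [h]⟩
      · rw [walkPerm_pos w hinj i hi0, if_neg hi0]
        exact ⟨fun h => hinj _ _ (by omega) ha h, fun h => by rw [h]⟩
    by_cases hj0 : j.val = 0
    · rw [walkPerm_zero w hinj j hj0, hw1 0 (Nat.zero_le _), mem_singleton, hval 1 (by omega)]
      split_ifs with h2
      · constructor
        · intro h; rcases h with h | ⟨h, _⟩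
        · intro h; omega
      · constructor
        · intro h; omega
        · intro h; omega
    · rw [walkPerm_pos w hinj j hj0]
      by_cases hj1 : j.val = 1
      · have e : m + 2 - j.val = m + 1 := by omega
        rw [e, hw2, mem_insert, mem_singleton, hval 0 (by omega), hval 1 (by omega)]
        split_ifs with h2
        · constructor
          · intro h; omega
          · intro h; omega
        · constructor
          · intro h; omega
          · intro h; omega
      · rw [hw1 (m + 2 - j.val) (by omega), mem_singleton, hval _ (by omega)]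
        split_ifs with h2
        · constructor
          · intro h; rcases h with h | ⟨h, _⟩
          · intro h; omega
        · constructor
          · intro h; omega
          · intro h; omega
  refine ⟨hW, hW.cond ?_⟩
  intro h
  apply h0
  have h2 : σ 0 = j0 := by rw [hσ, walkPerm_zero w hinj 0 rfl, hw0]
  rw [← h2]
  exact (iter_relabel_univ A σ _ 0).2 h

theorem main_iff (hk : 0 < k) {A : Fin (m + 2) → (Fin k → Fin (m + 2)) → ℝ}
    (hA : ∀ i f, 0 ≤ A i f) :
    HasPrimitiveDegree A ((m + 1) ^ 2 + 1) ↔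
      ∃ σ : Equiv.Perm (Fin (m + 2)), ExtremalForm (relabel A σ) := by
  constructor
  · rintro ⟨⟨_, h1⟩, h2⟩
    rw [positiveAfter_iff hk hA] at h1
    have h3 : ¬ PositiveAfter A ((m + 1) ^ 2) := by
      intro h4
      have h5 : (m + 1) ^ 2 + 1 ≤ (m + 1) ^ 2 := h2 ⟨by positivity, h4⟩
      omega
    rw [positiveAfter_iff hk hA] at h3
    push Not at h3
    obtain ⟨j0, hj0⟩ := h3
    exact main_forward hk h1 j0 hj0
  · rintro ⟨σ, hσ⟩
    rw [extremal_iff] at hσ
    obtain ⟨hW, hC⟩ := hσ
    have hfull : ∀ j, (step (pat A))^[(m + 1) ^ 2 + 1] {j} = univ := by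
      intro j
      have := (iter_relabel_univ A σ ((m + 1) ^ 2 + 1) (σ.symm j)).2 (hW.full _)
      simpa using this
    refine ⟨⟨Nat.succ_pos _, (positiveAfter_iff hk hA _).2 hfull⟩, ?_⟩
    rintro r ⟨_, hr⟩
    rw [positiveAfter_iff hk hA] at hr
    by_contra hlt
    push Not at hlt
    have hU : step (pat A) univ = univ := by
      apply eq_univ_of_forall
      intro x
      have h1 := hfull 0
      rw [iter_succ] at h1
      have h2 : x ∈ step (pat A) ((step (pat A))^[(m + 1) ^ 2] {0}) := by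
        rw [h1]; exact mem_univ _
      exact step_mono (pat A) (subset_univ _) h2
    have h1 := iter_univ_le (pat A) hU (show r ≤ (m + 1) ^ 2 by omega) (hr (σ 0))
    exact hW.not_full hC ((iter_relabel_univ A σ _ 0).1 h1)

end support

/-- Let `A` be a nonnegative tensor of order `m = k + 1 ≥ 2` and dimension `n ≥ 2`.  Then `A` is
primitive with primitive degree `(n - 1)^2 + 1` if and only if some simultaneous relabelling of
its indices is in extremal form. -/
theorem result (k n : ℕ) (hk : 1 ≤ k) (hn : 2 ≤ n) (A : Fin n → (Fin k → Fin n) → ℝ)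
    (hA : ∀ i f, 0 ≤ A i f) :
    HasPrimitiveDegree A ((n - 1) ^ 2 + 1) ↔
      ∃ σ : Equiv.Perm (Fin n), ExtremalForm (fun i f => A (σ i) (fun t => σ (f t))) := by
  obtain ⟨m, rfl⟩ : ∃ m, n = m + 2 := ⟨n - 2, by omega⟩
  exact main_iff hk hA

end Pool.Agent.Results.MP_9d720b_co.MaxPrimitiveDegree
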